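import Pool.Agent.H99.SQ.Defs

set_option autoImplicit false

namespace Pool.Agent.H59.SQ

open Finset Filter Topology Pool.Agent.H99.SQ

theorem pf_KC (h1 : T_ORD) : T_KC := by
  classical
  intro F n L A hF hA
  have hsub : A ⊆ F.biUnion (fun p => A.filter (fun l => Kill p n l)) := by
    intro l hl
    obtain ⟨-, p, hp, hk⟩ := hA l hl
    exact mem_biUnion.mpr ⟨p, hp, mem_filter.mpr ⟨hl, hk⟩⟩
  have hcard : (A.card : ℝ) ≤ ∑ p ∈ F, ((A.filter (fun l => Kill p n l)).card : ℝ) := by
    exact_mod_cast (card_le_card hsub).trans card_biUnion_le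
  refine hcard.trans ?_
  have hone : ∀ p ∈ F, ((A.filter (fun l => Kill p n l)).card : ℝ) ≤
      (L : ℝ) * (ci p n / mm p) + 1 := by
    intro p hp
    obtain ⟨hm, -, -, hord, -⟩ := h1 p (hF p hp)
    by_cases hex : ∃ l, Kill p n l
    · have hci : ci p n = 1 := by
        unfold ci
        rw [if_pos hex]
      rw [hci]
      have hle : (A.filter (fun l => Kill p n l)).card ≤ L / mm p + 1 := by
        rw [← card_range (L / mm p + 1)]
        refine card_le_card_of_injOn (fun l => l / mm p) ?_ ?_
        · intro l hl
          have hl' := (mem_filter.mp (mem_coe.mp hl)).1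
          have := (hA l hl').1
          simp only [coe_range, Set.mem_Iio]
          exact Nat.lt_succ_of_le (Nat.div_le_div_right this.le)
        · intro l hl l' hl' heq
          have e1 : Kill p n l := (mem_filter.mp (mem_coe.mp hl)).2
          have e2 : Kill p n l' := (mem_filter.mp (mem_coe.mp hl')).2
          have e3 : (2 : ZMod (p ^ 2)) ^ l = 2 ^ l' := by
            unfold Kill at e1 e2
            rw [← e1, ← e2]
          have e4 : l % mm p = l' % mm p := (hord l l').mp e3
          have e5 : l / mm p = l' / mm p := heq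
          rw [← Nat.div_add_mod l (mm p), ← Nat.div_add_mod l' (mm p), e4, e5]
      have hle' : ((A.filter (fun l => Kill p n l)).card : ℝ) ≤ ((L / mm p : ℕ) : ℝ) + 1 := by
        exact_mod_cast hle
      have hdiv : ((L / mm p : ℕ) : ℝ) ≤ (L : ℝ) / mm p := Nat.cast_div_le
      have : (L : ℝ) * (1 / (mm p : ℝ)) = (L : ℝ) / mm p := by ring
      rw [this]
      linarith
    · have hci : ci p n = 0 := by
        unfold ci
        rw [if_neg hex]
      have hempty : A.filter (fun l => Kill p n l) = ∅ := by
        rw [filter_eq_empty_iff]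
        intro l _ hk
        exact hex ⟨l, hk⟩
      rw [hci, hempty]
      simp
  refine (sum_le_sum hone).trans ?_
  rw [sum_add_distrib, ← mul_sum]
  unfold SS
  simp

end Pool.Agent.H59.SQ
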