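import Pool.Agent.H99.SQ.Defs

set_option autoImplicit false

namespace Pool.Agent.H59.SQ

open Finset Filter Topology Pool.Agent.H99.SQ

theorem num_factor (P m : ℝ) (hP : 0 < P) (hm : 0 < m) :
    P + m * (Real.exp (460 / m) - 1) ≤ P * Real.exp (460 * Real.exp (460 / m) / P) := by
  have h1 : (1 : ℝ) - 460 / m ≤ Real.exp (-(460 / m)) := by
    have := Real.add_one_le_exp (-(460 / m))
    linarith
  have h2 : Real.exp (460 / m) - 1 ≤ 460 / m * Real.exp (460 / m) := by
    have h3 := mul_le_mul_of_nonneg_right h1 (Real.exp_pos (460 / m)).le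
    rw [← Real.exp_add] at h3
    have : -(460 / m) + 460 / m = 0 := by ring
    rw [this, Real.exp_zero] at h3
    linarith [h3]
  have h4 : m * (Real.exp (460 / m) - 1) ≤ 460 * Real.exp (460 / m) := by
    calc m * (Real.exp (460 / m) - 1) ≤ m * (460 / m * Real.exp (460 / m)) :=
          mul_le_mul_of_nonneg_left h2 hm.le
      _ = 460 * Real.exp (460 / m) := by field_simp
  have h5 := Real.add_one_le_exp (460 * Real.exp (460 / m) / P)
  have h6 := mul_le_mul_of_nonneg_left h5 hP.le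
  have h7 : P * (460 * Real.exp (460 / m) / P + 1) = 460 * Real.exp (460 / m) + P := by
    field_simp
  linarith [h6, h7]

theorem exp_115 : Real.exp (23 / 2) ≤ 98800 := by
  have h1 : Real.exp (23 / 2) ^ 2 = Real.exp 1 ^ 23 := by
    rw [← Real.exp_nat_mul, ← Real.exp_nat_mul]
    norm_num
  have h2 : Real.exp 1 ^ 23 ≤ (2.7182818286 : ℝ) ^ 23 :=
    pow_le_pow_left₀ (Real.exp_pos 1).le Real.exp_one_lt_d9.le 23
  have h3 : (2.7182818286 : ℝ) ^ 23 ≤ 98800 ^ 2 := by norm_num
  have h4 : Real.exp (23 / 2) ^ 2 ≤ 98800 ^ 2 := by rw [h1]; exact h2.trans h3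
  exact le_of_sq_le_sq h4 (by norm_num)

theorem pf_NUM (h1 : T_ORD) (h2 : T_KA) (h3 : T_SQS) : T_NUM := by
  classical
  intro F hF
  have hodd : ∀ p ∈ F, Odd p := by
    intro p hp
    exact (hF p hp).1.1.odd_of_ne_two (hF p hp).1.2
  have hstep : ∏ p ∈ F, ((p : ℝ) ^ 2 + mm p * (Real.exp (460 / mm p) - 1)) ≤
      ∏ p ∈ F, ((p : ℝ) ^ 2 * Real.exp (460 * Real.exp (460 / mm p) / (p : ℝ) ^ 2)) := by
    refine prod_le_prod ?_ ?_
    · intro p hp
      have hm : (0 : ℝ) ≤ mm p := Nat.cast_nonneg _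
      have : 0 ≤ Real.exp (460 / (mm p : ℝ)) - 1 := by
        have : (1 : ℝ) ≤ Real.exp (460 / (mm p : ℝ)) := Real.one_le_exp (by positivity)
        linarith
      positivity
    · intro p hp
      have hm : (0 : ℝ) < mm p := Nat.cast_pos.mpr (h1 p (hF p hp).1).1
      have hp0 : (0 : ℝ) < (p : ℝ) ^ 2 := by
        have : (0 : ℝ) < (p : ℝ) := Nat.cast_pos.mpr (hF p hp).1.1.pos
        positivity
      exact num_factor _ _ hp0 hm
  refine hstep.trans ?_
  rw [prod_mul_distrib, mul_comm, ← Real.exp_sum]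
  refine mul_le_mul_of_nonneg_right ?_ (prod_nonneg fun p _ => by positivity)
  refine Real.exp_le_exp.mpr ?_
  rw [← sum_filter_add_sum_filter_not F (fun p => p ≤ 1000000)]
  have hA : ∑ p ∈ F.filter (fun p => p ≤ 1000000),
      460 * Real.exp (460 / mm p) / (p : ℝ) ^ 2 ≤ 1.26 := by
    have hs := h3 (F.filter (fun p => p ≤ 1000000)) 250 (by norm_num) (by
      intro p hp
      have hp' := (mem_filter.mp hp).1
      exact ⟨hodd p hp', (hF p hp').2.1⟩)
    have hle : ∑ p ∈ F.filter (fun p => p ≤ 1000000),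
        460 * Real.exp (460 / mm p) / (p : ℝ) ^ 2 ≤
        ∑ p ∈ F.filter (fun p => p ≤ 1000000), (460 * 2.7183) * (1 / (p : ℝ) ^ 2) := by
      refine sum_le_sum ?_
      intro p hp
      have hp' := (mem_filter.mp hp).1
      have hp6 := (mem_filter.mp hp).2
      obtain ⟨hop, h500, hne1, hne2⟩ := hF p hp'
      obtain ⟨hm, -, -, -, -, hdiv⟩ := h1 p hop
      have hd : p ∣ mm p :=
        (Dvd.intro _ rfl).trans (hdiv (h2 p hop.1 h500 hp6 hne1 hne2))
      have hge : p ≤ mm p := Nat.le_of_dvd hm hd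
      have hge' : (500 : ℝ) ≤ mm p := by
        have : 500 ≤ mm p := (h500.le).trans hge
        exact_mod_cast this
      have he : Real.exp (460 / (mm p : ℝ)) ≤ 2.7183 := by
        have e1 : Real.exp (460 / (mm p : ℝ)) ≤ Real.exp 1 := by
          refine Real.exp_le_exp.mpr ?_
          rw [div_le_one (by linarith)]
          linarith
        have e2 := Real.exp_one_lt_d9
        linarith
      have hq : (0 : ℝ) ≤ 1 / (p : ℝ) ^ 2 := by positivity
      calc 460 * Real.exp (460 / mm p) / (p : ℝ) ^ 2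
          = (460 * Real.exp (460 / mm p)) * (1 / (p : ℝ) ^ 2) := by ring
        _ ≤ (460 * 2.7183) * (1 / (p : ℝ) ^ 2) := by
          refine mul_le_mul_of_nonneg_right ?_ hq
          linarith
    rw [← mul_sum] at hle
    refine hle.trans ?_
    calc (460 * 2.7183 : ℝ) * ∑ p ∈ F.filter (fun p => p ≤ 1000000), (1 / (p : ℝ) ^ 2)
        ≤ (460 * 2.7183 : ℝ) * (1 / (4 * (250 : ℕ))) :=
          mul_le_mul_of_nonneg_left hs (by norm_num)
      _ ≤ 1.26 := by norm_num
  have hB : ∑ p ∈ F.filter (fun p => ¬ p ≤ 1000000),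
      460 * Real.exp (460 / mm p) / (p : ℝ) ^ 2 ≤ 22.8 := by
    have hs := h3 (F.filter (fun p => ¬ p ≤ 1000000)) 500000 (by norm_num) (by
      intro p hp
      have hp' := (mem_filter.mp hp).1
      have hp6 := (mem_filter.mp hp).2
      exact ⟨hodd p hp', by omega⟩)
    have hle : ∑ p ∈ F.filter (fun p => ¬ p ≤ 1000000),
        460 * Real.exp (460 / mm p) / (p : ℝ) ^ 2 ≤
        ∑ p ∈ F.filter (fun p => ¬ p ≤ 1000000), (460 * 98800) * (1 / (p : ℝ) ^ 2) := by
      refine sum_le_sum ?_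
      intro p hp
      have hp' := (mem_filter.mp hp).1
      have hp6 := (mem_filter.mp hp).2
      obtain ⟨hop, h500, hne1, hne2⟩ := hF p hp'
      obtain ⟨hm, hlt, -⟩ := h1 p hop
      have hge : 40 ≤ mm p := by
        by_contra hcon
        have h39 : mm p ≤ 39 := by omega
        have e1 : 2 ^ mm p ≤ 2 ^ 39 := Nat.pow_le_pow_right (by norm_num) h39
        have e2 : 1000000 ^ 2 ≤ p ^ 2 := Nat.pow_le_pow_left (by omega) 2
        have e3 : (2 : ℕ) ^ 39 < 1000000 ^ 2 := by norm_num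
        omega
      have hge' : (40 : ℝ) ≤ mm p := by exact_mod_cast hge
      have he : Real.exp (460 / (mm p : ℝ)) ≤ 98800 := by
        refine le_trans ?_ exp_115
        refine Real.exp_le_exp.mpr ?_
        rw [div_le_div_iff₀ (by linarith) (by norm_num)]
        linarith
      have hq : (0 : ℝ) ≤ 1 / (p : ℝ) ^ 2 := by positivity
      calc 460 * Real.exp (460 / mm p) / (p : ℝ) ^ 2
          = (460 * Real.exp (460 / mm p)) * (1 / (p : ℝ) ^ 2) := by ring
        _ ≤ (460 * 98800) * (1 / (p : ℝ) ^ 2) := by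
          refine mul_le_mul_of_nonneg_right ?_ hq
          linarith
    rw [← mul_sum] at hle
    refine hle.trans ?_
    calc (460 * 98800 : ℝ) * ∑ p ∈ F.filter (fun p => ¬ p ≤ 1000000), (1 / (p : ℝ) ^ 2)
        ≤ (460 * 98800 : ℝ) * (1 / (4 * (500000 : ℕ))) :=
          mul_le_mul_of_nonneg_left hs (by norm_num)
      _ ≤ 22.8 := by norm_num
  linarith [hA, hB]

end Pool.Agent.H59.SQ
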